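import Pool.Agent.Helper35.MS.StE
import Pool.Agent.Helper21.CL.M_MR

/-!
# Project MS: the module GAU (area growth)
-/

set_option autoImplicit false

namespace Helper84.MS

open Helper35.MS Helper35.PI Helper35.PI2 Helper32.CL
open scoped ContDiff Manifold Topology ENNReal BigOperators
open MeasureTheory Set Filter
open Pool.Agent.Helper21.CL (zt zt_eq zt_contDiff zt_deriv)

/-- the pointwise inequality -/
theorem pw_GAU {l s r i Y D : ℝ} (hl : 0 < l) (hs : 0 ≤ s) (hr : r ≤ s) (hY : 0 ≤ Y)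
    (hi : i ^ 2 ≤ Y * (s - r)) (hD : D = s + l⁻¹) :
    2 * l * ((1 + l * s) ^ 2)⁻¹ - Y / 8 ≤ 2 * D⁻¹ + 2 * -((D ^ 2)⁻¹) * r + D⁻¹ * i := by
  have hD0 : 0 < D := by
    rw [hD]
    positivity
  have hDi : 0 < D⁻¹ := inv_pos.2 hD0
  have h1 : 2 * l * ((1 + l * s) ^ 2)⁻¹ = 2 * l⁻¹ * (D⁻¹) ^ 2 := by
    have h2 : 1 + l * s = l * D := by
      rw [hD]
      field_simp
      ring
    rw [h2]
    field_simp
  have h2 : 2 * D⁻¹ + 2 * -((D ^ 2)⁻¹) * r = 2 * (l⁻¹ + (s - r)) * (D⁻¹) ^ 2 := by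
    have h3 : l⁻¹ + (s - r) = D - r := by
      rw [hD]
      ring
    rw [h3]
    field_simp
    ring
  have h3 : (D⁻¹ * i) ^ 2 ≤ (2 * (s - r) * (D⁻¹) ^ 2 + Y / 8) ^ 2 := by
    have h4 : (D⁻¹ * i) ^ 2 ≤ (D⁻¹) ^ 2 * (Y * (s - r)) := by
      rw [mul_pow]
      exact mul_le_mul_of_nonneg_left hi (by positivity)
    have h5 := sq_nonneg (2 * (s - r) * (D⁻¹) ^ 2 - Y / 8)
    nlinarith [h4, h5]
  have hA : 0 ≤ 2 * (s - r) * (D⁻¹) ^ 2 + Y / 8 := by
    have : 0 ≤ s - r := by linarith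
    positivity
  have h4 := (abs_le.1 (abs_le_of_sq_le_sq h3 hA)).1
  rw [h1, h2]
  linarith

theorem exp_GAU {u : ℝ} (hu : 0 ≤ u) : Real.exp (-u) ≤ 3 / 2 * ((1 + u) ^ 2)⁻¹ := by
  have h1 : (1 + u) / 2 ≤ Real.exp ((u - 1) / 2) := by
    have := Real.add_one_le_exp ((u - 1) / 2)
    linarith
  have h2 : ((1 + u) / 2) ^ 2 ≤ Real.exp ((u - 1) / 2) ^ 2 :=
    pow_le_pow_left₀ (by positivity) h1 2
  have h3 : Real.exp ((u - 1) / 2) ^ 2 * Real.exp 1 = Real.exp u := by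
    rw [← Real.exp_nat_mul, ← Real.exp_add]
    congr 1
    push_cast
    ring
  have h4 : (2.7 : ℝ) ≤ Real.exp 1 := by
    have := Real.exp_one_gt_d9
    linarith
  have h5 : 2 / 3 * (1 + u) ^ 2 ≤ Real.exp u := by
    rw [← h3]
    have h6 : ((1 + u) / 2) ^ 2 * 2.7 ≤ Real.exp ((u - 1) / 2) ^ 2 * Real.exp 1 :=
      mul_le_mul h2 h4 (by norm_num) (by positivity)
    nlinarith [sq_nonneg (1 + u)]
  rw [Real.exp_neg, inv_le_comm₀ (Real.exp_pos u) (by positivity)]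
  have h7 : (3 / 2 * ((1 + u) ^ 2)⁻¹)⁻¹ = 2 / 3 * (1 + u) ^ 2 := by
    rw [mul_inv, inv_inv]
    norm_num
  rw [h7]
  exact h5

/-- integration of the pointwise inequality -/
theorem core_GAU {M : Type} [TopologicalSpace M] [MeasurableSpace M] (μ : Measure M)
    (hint : ∀ g : M → ℝ, Continuous g → Integrable g μ) (f g k : M → ℝ) (hf : Continuous f)
    (hg : Continuous g) (hk : Continuous k) {l : ℝ} (hl : 0 < l)
    (h : ∀ q, 2 * l * f q - g q / 8 ≤ k q) (h0 : ∫ q, k q ∂μ = 0) :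
    ∫ q, f q ∂μ ≤ (∫ q, g q ∂μ) / (16 * l) := by
  have h1 : ∫ q, (2 * l * f q - g q / 8) ∂μ ≤ ∫ q, k q ∂μ :=
    integral_mono (((hint f hf).const_mul _).sub ((hint g hg).div_const _)) (hint k hk) h
  rw [h0, integral_sub ((hint f hf).const_mul _) ((hint g hg).div_const _), integral_const_mul,
    integral_div] at h1
  rw [le_div_iff₀ (by positivity)]
  linarith

theorem core2_GAU {M : Type} [TopologicalSpace M] [MeasurableSpace M] (μ : Measure M)
    (hint : ∀ g : M → ℝ, Continuous g → Integrable g μ) (s : M → ℝ) (hs : Continuous s)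
    (hs0 : ∀ q, 0 ≤ s q) {σ w : ℝ} (hσ : 0 < σ)
    (h : ∫ q, ((1 + (8 * σ)⁻¹ * s q) ^ 2)⁻¹ ∂μ ≤ w / (16 * (8 * σ)⁻¹)) :
    ∫ q, Real.exp (-(s q / (8 * σ))) ∂μ ≤ 3 / 4 * σ * w := by
  have h2 : ∀ q, Real.exp (-(s q / (8 * σ))) ≤ 3 / 2 * ((1 + (8 * σ)⁻¹ * s q) ^ 2)⁻¹ := by
    intro q
    have h3 : (8 * σ)⁻¹ * s q = s q / (8 * σ) := by
      rw [div_eq_inv_mul]
    rw [h3]
    have := hs0 q
    exact exp_GAU (by positivity)
  have hec : Continuous fun q => Real.exp (-(s q / (8 * σ))) :=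
    Real.continuous_exp.comp (hs.div_const _).neg
  have hgc : Continuous fun q => 3 / 2 * ((1 + (8 * σ)⁻¹ * s q) ^ 2)⁻¹ := by
    refine continuous_const.mul (Continuous.inv₀ ((continuous_const.add
      (continuous_const.mul hs)).pow 2) ?_)
    intro q
    have := hs0 q
    positivity
  have h3 := integral_mono (hint _ hec) (hint _ hgc) h2
  rw [integral_const_mul] at h3
  have h4 : 3 / 2 * (w / (16 * (8 * σ)⁻¹)) = 3 / 4 * σ * w := by
    field_simp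
    ring
  calc _ ≤ _ := h3
    _ ≤ 3 / 2 * (w / (16 * (8 * σ)⁻¹)) := mul_le_mul_of_nonneg_left h (by norm_num)
    _ = _ := h4

/-- one time -/
theorem slice_GAU {M V : Type} [TopologicalSpace M] [TopologicalSpace V] {J : Set ℝ}
    {g : M → ℝ → V} (h : CSTJ J g) {t : ℝ} (ht : t ∈ J) : Continuous fun q => g q t := by
  have hin : Continuous fun q : M => (q, t) := by fun_prop
  exact ContinuousOn.comp_continuous h hin fun q => ⟨mem_univ _, ht⟩

theorem hGAU (hPRJ : StPRJ) (hFVJ : StFVJ) (hMUJ : StMUJ) (hI4J : StI4J) : StGAU := by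
  intro N M _ _ _ _ _ _ _ J F c χ hS t ht y
  obtain ⟨s, -, hs⟩ := hMUJ 2 N M J F c χ hS
  have hint : ∀ g : M → ℝ, Continuous g → Integrable g (muM 2 F c χ t) :=
    fun g hg => ((hs t ht).2.2 g hg).1
  obtain ⟨-, -, -, -, hP⟩ := hPRJ 2 N M J F hS.mcf t ht
  obtain ⟨r, hr, -, hζ⟩ := hP y
  obtain ⟨cF, cH, -, -⟩ := hI4J 2 N M J F hS.mcf
  have hFc : Continuous fun q => F q t := slice_GAU cF ht
  have hHc : Continuous fun q => HH (n := 2) F q t := slice_GAU cH ht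
  have hYc : Continuous fun q => YF F q t := hHc.norm.pow 2
  have hsc : Continuous fun q => ‖F q t - y‖ ^ 2 := (hFc.sub continuous_const).norm.pow 2
  have hs0 : ∀ q, 0 ≤ ‖F q t - y‖ ^ 2 := fun q => by positivity
  have main : ∀ l : ℝ, 0 < l → ∫ q, ((1 + l * ‖F q t - y‖ ^ 2) ^ 2)⁻¹ ∂muM 2 F c χ t
      ≤ (∫ q, YF F q t ∂muM 2 F c χ t) / (16 * l) := by
    intro l hl
    have hb : 0 < l⁻¹ := inv_pos.2 hl
    obtain ⟨hX, -, -, hd⟩ := hζ (zt l⁻¹) (zt_contDiff hb)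
    obtain ⟨hc, h0⟩ := hFVJ 2 N M J F c χ hS t ht _ hX
    have hfc : Continuous fun q => ((1 + l * ‖F q t - y‖ ^ 2) ^ 2)⁻¹ := by
      refine Continuous.inv₀ ((continuous_const.add (continuous_const.mul hsc)).pow 2) ?_
      intro q
      have := hs0 q
      positivity
    have hXc : Continuous fun q => dvg (n := 2) F
        (fun q => zt l⁻¹ (‖F q t - y‖ ^ 2) • (F q t - y)) q t
          + inner ℝ (HH (n := 2) F q t) (zt l⁻¹ (‖F q t - y‖ ^ 2) • (F q t - y)) :=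
      hc.add (Continuous.inner (𝕜 := ℝ) hHc hX.continuous)
    refine core_GAU _ hint _ _ _ hfc hYc hXc hl ?_ h0
    intro q
    obtain ⟨hr0, hr1, hr2⟩ := hr q
    rw [hd q, inner_smul_right, zt_eq hb (hs0 q), zt_deriv hb (hs0 q)]
    have hY0 : 0 ≤ YF F q t := by
      unfold YF
      positivity
    exact pw_GAU hl (hs0 q) hr1 hY0 hr2 rfl
  exact ⟨main, fun σ hσ => core2_GAU _ hint _ hsc hs0 hσ (main _ (by positivity))⟩

end Helper84.MS
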